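import Pool.Agent.Helper5.EM.AUT2

/-!
# T33, row AUT: isomorphisms of orthogonal and symplectic Lie algebras
-/

set_option autoImplicit false

open Matrix MT

namespace EM

variable {K : Type} [Field K]

theorem two_le [CharZero K] {r w : ℕ} {ψ : Matrix (Fin r) (Fin r) K} (hψ : ψ.det ≠ 0)
    (hs : ψ.transpose = (-1 : K) ^ w • ψ) (hc : (Odd w ∧ 0 < r) ∨ 3 ≤ r) : 2 ≤ r := by
  rcases hc with ⟨hw, hr⟩ | hr
  · by_contra h
    have hr1 : r = 1 := by omega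
    subst hr1
    rw [hw.neg_one_pow, neg_one_smul] at hs
    have h1 := congrFun (congrFun hs 0) 0
    have h2 : ψ 0 0 = -ψ 0 0 := h1
    have h3 : ψ 0 0 = 0 := by
      have : (2 : K) * ψ 0 0 = 0 := by linear_combination h2
      rcases mul_eq_zero.1 this with h | h
      · exact absurd h two_ne_zero
      · exact h
    apply hψ
    rw [Matrix.det_fin_one, h3]
  · omega

theorem dg_ne_zero [CharZero K] {r : ℕ} (P : Matrix.GeneralLinearGroup (Fin r) K)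
    (s : Fin r → ℤ) (i₀ : Fin r) (h1 : s i₀ = 1) : dg P s ≠ 0 := by
  intro h
  unfold dg at h
  have h2 := gl_im P
  have h3 : Matrix.diagonal (fun j => (s j : K)) = 0 := by
    generalize ((P⁻¹ : Matrix.GeneralLinearGroup (Fin r) K) : Matrix (Fin r) (Fin r) K) = Qi at *
    generalize (P : Matrix (Fin r) (Fin r) K) = Q at *
    generalize Matrix.diagonal (fun j => (s j : K)) = D at *
    calc D = (Qi * Q) * D * (Qi * Q) := by rw [h2, Matrix.one_mul, Matrix.mul_one]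
      _ = Qi * (Q * D * Qi) * Q := by simp only [Matrix.mul_assoc]
      _ = 0 := by rw [h, Matrix.mul_zero, Matrix.zero_mul]
  have h4 := congrFun (congrFun h3 i₀) i₀
  rw [Matrix.diagonal_apply_eq, h1, Matrix.zero_apply] at h4
  norm_num at h4

/-- the frame of the image, even weight -/
theorem frame_even [CharZero K] [IsAlgClosed K] (hSPO : ST_SPO) (hDIM : ST_DIM) {r r' : ℕ}
    {ψ : Matrix (Fin r) (Fin r) K} {ψ' : Matrix (Fin r') (Fin r') K}
    {R : Submodule K (Matrix (Fin r) (Fin r) K × Matrix (Fin r') (Fin r') K)}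
    (h : Gph ψ ψ' R) (hψ : ψ.det ≠ 0) (hs : ψ.transpose = ψ) (hψ' : ψ'.det ≠ 0)
    (hs' : ψ'.transpose = ψ') (hr : 3 ≤ r) (hr8 : r ≠ 8) (hr' : 3 ≤ r')
    (P : Matrix.GeneralLinearGroup (Fin r) K) (s : Fin r → ℤ)
    (i₀ j₀ : Fin r) (h1 : s i₀ = 1) (h2 : s j₀ = -1) (h3 : ∀ j, j ≠ i₀ → j ≠ j₀ → s j = 0)
    {T' : Matrix (Fin r') (Fin r') K} (hT : (dg P s, T') ∈ R) :
    r = r' ∧ ∃ (P' : Matrix.GeneralLinearGroup (Fin r') K) (s' : Fin r' → ℤ) (i₀' j₀' : Fin r'),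
      s' i₀' = 1 ∧ s' j₀' = -1 ∧ (∀ j, j ≠ i₀' → j ≠ j₀' → s' j = 0) ∧ T' = dg P' s' := by
  have hTi : dg P s ∈ Grs.isoS ψ := (h.iso _ hT).1
  have hT'i : T' ∈ Grs.isoS ψ' := (h.iso _ hT).2
  obtain ⟨a1, a2, _⟩ := hDIM K r ψ hψ hs
  obtain ⟨b1, _, b3⟩ := hDIM K r' ψ' hψ' hs'
  have a2' := a2 P s i₀ j₀ h1 h2 h3 hTi
  obtain ⟨f, _⟩ := Grs.graph_equiv (Grs.isoS ψ) (Grs.isoS ψ') R h.iso h.l h.r h.inj
  have hfr : Module.finrank K (Grs.isoS ψ) = Module.finrank K (Grs.isoS ψ') := f.finrank_eq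
  have hrr : r = r' := by
    rw [hfr, b1] at a1
    obtain ⟨a, rfl⟩ : ∃ a, r = a + 1 := ⟨r - 1, by omega⟩
    obtain ⟨b, rfl⟩ : ∃ b, r' = b + 1 := ⟨r' - 1, by omega⟩
    simp only [Nat.add_sub_cancel] at a1
    rcases lt_trichotomy a b with hab | hab | hab
    · nlinarith
    · rw [hab]
    · nlinarith
  refine ⟨hrr, ?_⟩
  have hT'0 : T' ≠ 0 := by
    intro h0
    exact dg_ne_zero P s i₀ h1 ((h.inj _ hT).2 h0)
  have hdec : ∀ Y : Matrix (Fin r') (Fin r') K, Y.transpose * ψ' + ψ' * Y = 0 →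
      ∃ Y₀ Y₁ Y₂ : Matrix (Fin r') (Fin r') K, Y = Y₀ + Y₁ + Y₂ ∧ T' * Y₀ - Y₀ * T' = 0 ∧
        T' * Y₁ - Y₁ * T' = Y₁ ∧ T' * Y₂ - Y₂ * T' = -Y₂ := by
    intro Y' hY'
    obtain ⟨Y, hY⟩ := h.r Y' hY'
    have hYi : Y ∈ Grs.isoS ψ := (h.iso _ hY).1
    obtain ⟨B₀, hB₀⟩ := h.l _ (hc_mem P s hTi hYi 0)
    obtain ⟨B₁, hB₁⟩ := h.l _ (hc_mem P s hTi hYi 1)
    obtain ⟨B₂, hB₂⟩ := h.l _ (hc_mem P s hTi hYi (-1))
    refine ⟨B₀, B₁, B₂, ?_, ?_, ?_, ?_⟩
    · have e := R.add_mem (R.add_mem hB₀ hB₁) hB₂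
      have e2 : hc P s 0 Y + hc P s 1 Y + hc P s (-1) Y = Y := by
        have := hc_sum P s i₀ j₀ h1 h2 h3 Y
        obtain ⟨n1, n2⟩ := no_two P s hψ hs hTi i₀ j₀ h1 h2 h3 hYi
        rw [n1, n2, add_zero, add_zero] at this
        exact this.symm
      have e3 : ((hc P s 0 Y, B₀) + (hc P s 1 Y, B₁) + (hc P s (-1) Y, B₂) :
          Matrix (Fin r) (Fin r) K × Matrix (Fin r') (Fin r') K) = (Y, B₀ + B₁ + B₂) :=
        Prod.ext e2 rfl
      rw [e3] at e
      exact h.uniq hY e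
    · have e := h.eig hT hB₀ _ (dg_hc P s 0 Y)
      rw [Int.cast_zero, zero_smul] at e
      exact e
    · have e := h.eig hT hB₁ _ (dg_hc P s 1 Y)
      rw [Int.cast_one, one_smul] at e
      exact e
    · have e := h.eig hT hB₂ _ (dg_hc P s (-1) Y)
      rw [Int.cast_neg, Int.cast_one, neg_one_smul] at e
      exact e
  rcases hSPO K r' ψ' T' hr' hψ' hs' hT'i hT'0 hdec with ⟨P', s', i₀', j₀', c1, c2, c3, c4⟩ |
    ⟨P', s', c1, c2⟩
  · exact ⟨P', s', i₀', j₀', c1, c2, c3, c4⟩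
  · exfalso
    have c3 : (dg P' s').transpose * ψ' + ψ' * dg P' s' = 0 := by
      rw [← c2]
      exact (Grs.isoS ψ').smul_mem (2 : K) hT'i
    have c4 := b3 P' s' c1 c3
    have c5 : Deg ψ' (dg P' s') 2 = Deg ψ' T' 1 := by
      ext Y
      have e1 : dg P' s' * Y - Y * dg P' s' = (2 : K) • (T' * Y - Y * T') := by
        rw [← c2, Matrix.smul_mul, Matrix.mul_smul, smul_sub]
      constructor
      · rintro ⟨y1, y2⟩
        refine ⟨y1, ?_⟩
        rw [e1] at y2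
        rw [one_smul]
        exact smul_right_injective _ (two_ne_zero : (2 : K) ≠ 0) y2
      · rintro ⟨y1, y2⟩
        refine ⟨y1, ?_⟩
        rw [e1, y2, one_smul]
    obtain ⟨g, _⟩ := h.deg hT 1
    have c6 : Module.finrank K (Deg ψ (dg P s) 1) = Module.finrank K (Deg ψ' T' 1) :=
      g.finrank_eq
    rw [c5, ← c6, ← hrr] at c4
    set dd := Module.finrank K (Deg ψ (dg P s) 1) with hdd
    have c7 : r - 2 = dd := by omega
    rw [c7] at c4
    have c8 : 0 < dd := by omega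
    have c9 : 8 = r := Nat.eq_of_mul_eq_mul_right c8 c4
    exact hr8 c9.symm

/-- the frame of the image, odd weight -/
theorem frame_odd [CharZero K] [IsAlgClosed K] (hSPS : ST_SPS) (hLAM : ST_LAM) {r r' w : ℕ}
    (hw : Odd w) {ψ : Matrix (Fin r) (Fin r) K} {ψ' : Matrix (Fin r') (Fin r') K}
    {R : Submodule K (Matrix (Fin r) (Fin r) K × Matrix (Fin r') (Fin r') K)}
    (h : Gph ψ ψ' R) (hψ : ψ.det ≠ 0) (hs : ψ.transpose = (-1 : K) ^ w • ψ) (hψ' : ψ'.det ≠ 0)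
    (hs' : ψ'.transpose = (-1 : K) ^ w • ψ')
    (P : Matrix.GeneralLinearGroup (Fin r) K) (s : Fin r → ℤ)
    (i₀ j₀ : Fin r) (h1 : s i₀ = 1) (h2 : s j₀ = -1) (h3 : ∀ j, j ≠ i₀ → j ≠ j₀ → s j = 0)
    {T' : Matrix (Fin r') (Fin r') K} (hT : (dg P s, T') ∈ R) :
    ∃ (P' : Matrix.GeneralLinearGroup (Fin r') K) (s' : Fin r' → ℤ) (i₀' j₀' : Fin r'),
      s' i₀' = 1 ∧ s' j₀' = -1 ∧ (∀ j, j ≠ i₀' → j ≠ j₀' → s' j = 0) ∧ T' = dg P' s' := by
  have hTi : dg P s ∈ Grs.isoS ψ := (h.iso _ hT).1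
  have hT'i : T' ∈ Grs.isoS ψ' := (h.iso _ hT).2
  have hs'' : ψ'.transpose = -ψ' := by rw [hs', hw.neg_one_pow, neg_one_smul]
  obtain ⟨_, hL⟩ := hLAM K r w ψ P s i₀ j₀ (dg P s) hψ hs h1 h2 h3 hTi hTi rfl
  obtain ⟨⟨E, hE0, hE, hEu⟩, _⟩ := hL hw
  obtain ⟨E', hE'⟩ := h.l E hE.1
  have hE'0 : E' ≠ 0 := fun h0 => hE0 ((h.inj _ hE').2 h0)
  refine hSPS K r' ψ' T' E' hψ' hs'' hT'i ?_ hE'0 (h.iso _ hE').2 (h.eig hT hE' 2 hE.2) ?_
  · intro Y' hY'
    obtain ⟨Y, hY⟩ := h.r Y' hY'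
    have hYi : Y ∈ Grs.isoS ψ := (h.iso _ hY).1
    obtain ⟨B₀, hB₀⟩ := h.l _ (hc_mem P s hTi hYi 0)
    obtain ⟨B₁, hB₁⟩ := h.l _ (hc_mem P s hTi hYi 1)
    obtain ⟨B₂, hB₂⟩ := h.l _ (hc_mem P s hTi hYi (-1))
    obtain ⟨B₃, hB₃⟩ := h.l _ (hc_mem P s hTi hYi 2)
    obtain ⟨B₄, hB₄⟩ := h.l _ (hc_mem P s hTi hYi (-2))
    refine ⟨B₀, B₁, B₂, B₃, B₄, ?_, ?_, ?_, ?_, ?_, ?_⟩
    · have e := R.add_mem (R.add_mem (R.add_mem (R.add_mem hB₀ hB₁) hB₂) hB₃) hB₄
      have e3 : ((hc P s 0 Y, B₀) + (hc P s 1 Y, B₁) + (hc P s (-1) Y, B₂) +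
          (hc P s 2 Y, B₃) + (hc P s (-2) Y, B₄) :
          Matrix (Fin r) (Fin r) K × Matrix (Fin r') (Fin r') K) =
          (Y, B₀ + B₁ + B₂ + B₃ + B₄) :=
        Prod.ext (hc_sum P s i₀ j₀ h1 h2 h3 Y).symm rfl
      rw [e3] at e
      exact h.uniq hY e
    · have e := h.eig hT hB₀ _ (dg_hc P s 0 Y)
      rw [Int.cast_zero, zero_smul] at e
      exact e
    · have e := h.eig hT hB₁ _ (dg_hc P s 1 Y)
      rw [Int.cast_one, one_smul] at e
      exact e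
    · have e := h.eig hT hB₂ _ (dg_hc P s (-1) Y)
      rw [Int.cast_neg, Int.cast_one, neg_one_smul] at e
      exact e
    · have e := h.eig hT hB₃ _ (dg_hc P s 2 Y)
      rw [Int.cast_ofNat] at e
      exact e
    · have e := h.eig hT hB₄ _ (dg_hc P s (-2) Y)
      rw [Int.cast_neg, Int.cast_ofNat, neg_smul] at e
      exact e
  · intro Y' hY' hY'2
    obtain ⟨Y, hY⟩ := h.r Y' hY'
    have e1 : Y ∈ Deg ψ (dg P s) 2 := ⟨(h.iso _ hY).1, h.eig' hT hY 2 hY'2⟩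
    obtain ⟨c, hc⟩ := hEu Y e1
    refine ⟨c, ?_⟩
    have e2 : ((c • E, c • E') : Matrix (Fin r) (Fin r) K × Matrix (Fin r') (Fin r') K) ∈ R :=
      R.smul_mem c hE'
    rw [hc] at hY
    exact h.uniq hY e2

/-- irreducibility in a frame -/
theorem irr_conj {r : ℕ} {a : Submodule K (Matrix (Fin r) (Fin r) K)}
    (ha : ∀ U : Submodule K (Fin r → K), (∀ A ∈ a, ∀ v ∈ U, A.mulVec v ∈ U) → U = ⊥ ∨ U = ⊤)
    (P : Matrix.GeneralLinearGroup (Fin r) K) (U : Submodule K (Fin r → K))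
    (hU : ∀ A ∈ a, ∀ v ∈ U, (((P⁻¹ : Matrix.GeneralLinearGroup (Fin r) K) :
      Matrix (Fin r) (Fin r) K) * A * (P : Matrix (Fin r) (Fin r) K)).mulVec v ∈ U) :
    U = ⊥ ∨ U = ⊤ := by
  have h1 := gl_im P
  have h2 := gl_mi P
  generalize ((P⁻¹ : Matrix.GeneralLinearGroup (Fin r) K) : Matrix (Fin r) (Fin r) K) = Qi at *
  generalize (P : Matrix (Fin r) (Fin r) K) = Q at *
  have h3 : ∀ u, Qi.mulVec (Q.mulVec u) = u := by
    intro u
    rw [Matrix.mulVec_mulVec, h1, Matrix.one_mulVec]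
  rcases ha (U.comap Qi.mulVecLin) (by
    intro A hA v hv
    have h4 : Qi.mulVec v ∈ U := hv
    show Qi.mulVec (A.mulVec v) ∈ U
    have h5 := hU A hA _ h4
    have h6 : (Qi * A * Q).mulVec (Qi.mulVec v) = Qi.mulVec (A.mulVec v) := by
      rw [Matrix.mulVec_mulVec, Matrix.mulVec_mulVec, Matrix.mul_assoc (Qi * A) Q Qi, h2,
        Matrix.mul_one]
    rw [h6] at h5
    exact h5) with h4 | h4
  · left
    rw [Submodule.eq_bot_iff]
    intro u hu
    have h5 : Q.mulVec u ∈ U.comap Qi.mulVecLin := by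
      show Qi.mulVec (Q.mulVec u) ∈ U
      rw [h3]
      exact hu
    rw [h4, Submodule.mem_bot] at h5
    rw [← h3 u, h5, Matrix.mulVec_zero]
  · right
    rw [Submodule.eq_top_iff']
    intro u
    have h5 : Q.mulVec u ∈ U.comap Qi.mulVecLin := by
      rw [h4]
      exact Submodule.mem_top
    have h6 : Qi.mulVec (Q.mulVec u) ∈ U := h5
    rwa [h3] at h6

/-- the graph in two frames -/
noncomputable def Rc {r r' : ℕ}
    (R : Submodule K (Matrix (Fin r) (Fin r) K × Matrix (Fin r') (Fin r') K))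
    (P : Matrix.GeneralLinearGroup (Fin r) K) (P' : Matrix.GeneralLinearGroup (Fin r') K) :
    Submodule K (Matrix (Fin r) (Fin r) K × Matrix (Fin r') (Fin r') K) where
  carrier := {q | (((P : Matrix (Fin r) (Fin r) K) * q.1 *
      ((P⁻¹ : Matrix.GeneralLinearGroup (Fin r) K) : Matrix (Fin r) (Fin r) K),
    (P' : Matrix (Fin r') (Fin r') K) * q.2 *
      ((P'⁻¹ : Matrix.GeneralLinearGroup (Fin r') K) : Matrix (Fin r') (Fin r') K)) :
      Matrix (Fin r) (Fin r) K × Matrix (Fin r') (Fin r') K) ∈ R}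
  add_mem' := by
    intro p q hp hq
    have h1 := R.add_mem hp hq
    show ((_, _) : Matrix (Fin r) (Fin r) K × Matrix (Fin r') (Fin r') K) ∈ R
    convert h1 using 1
    refine Prod.ext ?_ ?_
    · show _ * (p.1 + q.1) * _ = _ * p.1 * _ + _ * q.1 * _
      rw [Matrix.mul_add, Matrix.add_mul]
    · show _ * (p.2 + q.2) * _ = _ * p.2 * _ + _ * q.2 * _
      rw [Matrix.mul_add, Matrix.add_mul]
  zero_mem' := by
    have h1 := R.zero_mem
    show ((_, _) : Matrix (Fin r) (Fin r) K × Matrix (Fin r') (Fin r') K) ∈ R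
    convert h1 using 1
    refine Prod.ext ?_ ?_
    · show _ * 0 * _ = 0
      rw [Matrix.mul_zero, Matrix.zero_mul]
    · show _ * 0 * _ = 0
      rw [Matrix.mul_zero, Matrix.zero_mul]
  smul_mem' := by
    intro c p hp
    have h1 := R.smul_mem c hp
    show ((_, _) : Matrix (Fin r) (Fin r) K × Matrix (Fin r') (Fin r') K) ∈ R
    convert h1 using 1
    refine Prod.ext ?_ ?_
    · show _ * (c • p.1) * _ = c • (_ * p.1 * _)
      rw [Matrix.mul_smul, Matrix.smul_mul]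
    · show _ * (c • p.2) * _ = c • (_ * p.2 * _)
      rw [Matrix.mul_smul, Matrix.smul_mul]

theorem conj_cancel {r : ℕ} (P : Matrix.GeneralLinearGroup (Fin r) K)
    (A : Matrix (Fin r) (Fin r) K) :
    (P : Matrix (Fin r) (Fin r) K) * (((P⁻¹ : Matrix.GeneralLinearGroup (Fin r) K) :
      Matrix (Fin r) (Fin r) K) * A * (P : Matrix (Fin r) (Fin r) K)) *
      ((P⁻¹ : Matrix.GeneralLinearGroup (Fin r) K) : Matrix (Fin r) (Fin r) K) = A := by
  have h2 := gl_mi P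
  generalize ((P⁻¹ : Matrix.GeneralLinearGroup (Fin r) K) : Matrix (Fin r) (Fin r) K) = Qi at *
  generalize (P : Matrix (Fin r) (Fin r) K) = Q at *
  calc Q * (Qi * A * Q) * Qi = (Q * Qi) * A * (Q * Qi) := by simp only [Matrix.mul_assoc]
    _ = A := by rw [h2, Matrix.one_mul, Matrix.mul_one]

theorem conj_cancel' {r : ℕ} (P : Matrix.GeneralLinearGroup (Fin r) K)
    (A : Matrix (Fin r) (Fin r) K) :
    ((P⁻¹ : Matrix.GeneralLinearGroup (Fin r) K) : Matrix (Fin r) (Fin r) K) *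
      ((P : Matrix (Fin r) (Fin r) K) * A * ((P⁻¹ : Matrix.GeneralLinearGroup (Fin r) K) :
      Matrix (Fin r) (Fin r) K)) * (P : Matrix (Fin r) (Fin r) K) = A := by
  have h2 := gl_im P
  generalize ((P⁻¹ : Matrix.GeneralLinearGroup (Fin r) K) : Matrix (Fin r) (Fin r) K) = Qi at *
  generalize (P : Matrix (Fin r) (Fin r) K) = Q at *
  calc Qi * (Q * A * Qi) * Q = (Qi * Q) * A * (Qi * Q) := by simp only [Matrix.mul_assoc]
    _ = A := by rw [h2, Matrix.one_mul, Matrix.mul_one]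

theorem conj_mul {r : ℕ} (P : Matrix.GeneralLinearGroup (Fin r) K)
    (A B : Matrix (Fin r) (Fin r) K) :
    ((P : Matrix (Fin r) (Fin r) K) * A * ((P⁻¹ : Matrix.GeneralLinearGroup (Fin r) K) :
      Matrix (Fin r) (Fin r) K)) * ((P : Matrix (Fin r) (Fin r) K) * B *
      ((P⁻¹ : Matrix.GeneralLinearGroup (Fin r) K) : Matrix (Fin r) (Fin r) K)) =
    (P : Matrix (Fin r) (Fin r) K) * (A * B) *
      ((P⁻¹ : Matrix.GeneralLinearGroup (Fin r) K) : Matrix (Fin r) (Fin r) K) := by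
  have h2 := gl_im P
  generalize ((P⁻¹ : Matrix.GeneralLinearGroup (Fin r) K) : Matrix (Fin r) (Fin r) K) = Qi at *
  generalize (P : Matrix (Fin r) (Fin r) K) = Q at *
  calc Q * A * Qi * (Q * B * Qi) = Q * A * (Qi * Q) * B * Qi := by simp only [Matrix.mul_assoc]
    _ = Q * (A * B) * Qi := by rw [h2]; simp only [Matrix.mul_assoc, Matrix.one_mul]

/-- AUT: isomorphisms of orthogonal and symplectic Lie algebras. -/
theorem st_AUT (hHWM : ST_HWM) (hETY : ST_ETY) (hSPO : ST_SPO) (hSPS : ST_SPS)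
    (hDIM : ST_DIM) (hLAM : ST_LAM) : ST_AUT := by
  intro K _ _ _ r r' w ψ ψ' R hψ hs hψ' hs' hcase hiso hbrk hl hr hinj
  have h : Gph ψ ψ' R := ⟨hiso, hbrk, hl, hr, hinj⟩
  have hr2 : 2 ≤ r := two_le hψ hs (by
    rcases hcase with ⟨a, b, _⟩ | ⟨a, _⟩
    · exact Or.inl ⟨a, b⟩
    · exact Or.inr a)
  obtain ⟨P, s, i₀, j₀, h1, h2, h3, hTi⟩ := hETY K r w ψ hr2 hψ hs
  obtain ⟨T', hT⟩ := h.l _ hTi
  have hT'i : T' ∈ Grs.isoS ψ' := (h.iso _ hT).2
  -- the frame of the image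
  have hfr : (Odd w ∨ (Even w ∧ 3 ≤ r ∧ r = r')) ∧
      ∃ (P' : Matrix.GeneralLinearGroup (Fin r') K) (s' : Fin r' → ℤ) (i₀' j₀' : Fin r'),
      s' i₀' = 1 ∧ s' j₀' = -1 ∧ (∀ j, j ≠ i₀' → j ≠ j₀' → s' j = 0) ∧ T' = dg P' s' := by
    rcases Nat.even_or_odd w with hw | hw
    · rcases hcase with ⟨a, _, _⟩ | ⟨a, b, _, c, _, _⟩
      · exact absurd hw (Nat.not_even_iff_odd.2 a)
      · have hs1 : ψ.transpose = ψ := by rw [hs, hw.neg_one_pow, one_smul]
        have hs2 : ψ'.transpose = ψ' := by rw [hs', hw.neg_one_pow, one_smul]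
        obtain ⟨e1, e2⟩ := frame_even hSPO hDIM h hψ hs1 hψ' hs2 a c b P s i₀ j₀ h1 h2 h3 hT
        exact ⟨Or.inr ⟨hw, a, e1⟩, e2⟩
    · exact ⟨Or.inl hw, frame_odd hSPS hLAM hw h hψ hs hψ' hs' P s i₀ j₀ h1 h2 h3 hT⟩
  obtain ⟨hpar, P', s', i₀', j₀', k1, k2, k3, hT'⟩ := hfr
  subst hT'
  have vals : ∀ i, i ≠ i₀ → s i < s i₀ := by
    intro i hi
    by_cases hj : i = j₀
    · rw [hj, h1, h2]; norm_num
    · rw [h3 i hi hj, h1]; norm_num
  have vals' : ∀ i, i ≠ i₀' → s' i < s' i₀' := by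
    intro i hi
    by_cases hj : i = j₀'
    · rw [hj, k1, k2]; norm_num
    · rw [k3 i hi hj, k1]; norm_num
  have hirr : Odd w ∨ 3 ≤ r := by
    rcases hpar with a | ⟨_, a, _⟩
    · exact Or.inl a
    · exact Or.inr a
  have hirr' : Odd w ∨ 3 ≤ r' := by
    rcases hpar with a | ⟨_, a, b⟩
    · exact Or.inl a
    · exact Or.inr (b ▸ a)
  have hmain : (∃ B : Matrix (Fin r') (Fin r) K, B ≠ 0 ∧ ∀ p ∈ Rc R P P', p.2 * B = B * p.1) →
      ∃ B : Matrix (Fin r') (Fin r) K, B ≠ 0 ∧ ∀ p ∈ R, p.2 * B = B * p.1 := by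
    rintro ⟨B, hB0, hB⟩
    refine ⟨(P' : Matrix (Fin r') (Fin r') K) * B *
      ((P⁻¹ : Matrix.GeneralLinearGroup (Fin r) K) : Matrix (Fin r) (Fin r) K), ?_, ?_⟩
    · intro h0
      apply hB0
      have e1 := gl_im P'
      have e2 := gl_im P
      generalize ((P⁻¹ : Matrix.GeneralLinearGroup (Fin r) K) : Matrix (Fin r) (Fin r) K) = Qi at *
      generalize (P : Matrix (Fin r) (Fin r) K) = Q at *
      generalize ((P'⁻¹ : Matrix.GeneralLinearGroup (Fin r') K) :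
        Matrix (Fin r') (Fin r') K) = Qi' at *
      generalize (P' : Matrix (Fin r') (Fin r') K) = Q' at *
      calc B = (Qi' * Q') * B * (Qi * Q) := by rw [e1, e2, Matrix.one_mul, Matrix.mul_one]
        _ = Qi' * (Q' * B * Qi) * Q := by simp only [Matrix.mul_assoc]
        _ = 0 := by rw [h0, Matrix.mul_zero, Matrix.zero_mul]
    · intro p hp
      have hq : ((((P⁻¹ : Matrix.GeneralLinearGroup (Fin r) K) : Matrix (Fin r) (Fin r) K) *
          p.1 * (P : Matrix (Fin r) (Fin r) K),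
          ((P'⁻¹ : Matrix.GeneralLinearGroup (Fin r') K) : Matrix (Fin r') (Fin r') K) *
          p.2 * (P' : Matrix (Fin r') (Fin r') K)) :
          Matrix (Fin r) (Fin r) K × Matrix (Fin r') (Fin r') K) ∈ Rc R P P' := by
        show ((_, _) : Matrix (Fin r) (Fin r) K × Matrix (Fin r') (Fin r') K) ∈ R
        rw [conj_cancel, conj_cancel]
        exact hp
      have e0 := hB _ hq
      have e3 := gl_mi P'
      have e4 := gl_mi P
      simp only at e0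
      generalize ((P⁻¹ : Matrix.GeneralLinearGroup (Fin r) K) : Matrix (Fin r) (Fin r) K) = Qi at *
      generalize (P : Matrix (Fin r) (Fin r) K) = Q at *
      generalize ((P'⁻¹ : Matrix.GeneralLinearGroup (Fin r') K) :
        Matrix (Fin r') (Fin r') K) = Qi' at *
      generalize (P' : Matrix (Fin r') (Fin r') K) = Q' at *
      calc p.2 * (Q' * B * Qi) = 1 * p.2 * (Q' * B * Qi) := by rw [Matrix.one_mul]
        _ = (Q' * Qi') * p.2 * (Q' * B * Qi) := by rw [e3]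
        _ = Q' * (Qi' * p.2 * Q' * B) * Qi := by simp only [Matrix.mul_assoc]
        _ = Q' * (B * (Qi * p.1 * Q)) * Qi := by rw [e0]
        _ = Q' * B * Qi * p.1 * (Q * Qi) := by simp only [Matrix.mul_assoc]
        _ = Q' * B * Qi * p.1 := by rw [e4, Matrix.mul_one]
  refine hmain (hHWM K r r' (Rc R P P') s s' i₀ i₀' ?_ ?_ ?_ ?_ (by rw [h1, k1]) vals vals' ?_)
  · -- brackets
    intro p hp q hq
    have e := h.brk' hp hq
    rw [conj_mul, conj_mul, conj_mul, conj_mul] at e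
    show ((_, _) : Matrix (Fin r) (Fin r) K × Matrix (Fin r') (Fin r') K) ∈ R
    convert e using 1
    refine Prod.ext ?_ ?_
    · show _ * (p.1 * q.1 - q.1 * p.1) * _ = _
      rw [Matrix.mul_sub, Matrix.sub_mul]
    · show _ * (p.2 * q.2 - q.2 * p.2) * _ = _
      rw [Matrix.mul_sub, Matrix.sub_mul]
  · -- components
    intro p hp x
    refine gra_pair (Rc R P P') s s' ?_ p hp x
    intro q hq
    have e := h.brk' hT hq
    rw [dg_brk, dg_brk] at e
    exact e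
  · -- irreducible
    intro U hU
    refine irr_conj (irr_isoS hψ hs hirr) P U ?_
    intro A hA v hv
    obtain ⟨B, hAB⟩ := h.l A hA
    have hq : ((((P⁻¹ : Matrix.GeneralLinearGroup (Fin r) K) : Matrix (Fin r) (Fin r) K) *
        A * (P : Matrix (Fin r) (Fin r) K),
        ((P'⁻¹ : Matrix.GeneralLinearGroup (Fin r') K) : Matrix (Fin r') (Fin r') K) *
        B * (P' : Matrix (Fin r') (Fin r') K)) :
        Matrix (Fin r) (Fin r) K × Matrix (Fin r') (Fin r') K) ∈ Rc R P P' := by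
      show ((_, _) : Matrix (Fin r) (Fin r) K × Matrix (Fin r') (Fin r') K) ∈ R
      rw [conj_cancel, conj_cancel]
      exact hAB
    exact hU _ hq v hv
  · intro U hU
    refine irr_conj (irr_isoS hψ' hs' hirr') P' U ?_
    intro B hB v hv
    obtain ⟨A, hAB⟩ := h.r B hB
    have hq : ((((P⁻¹ : Matrix.GeneralLinearGroup (Fin r) K) : Matrix (Fin r) (Fin r) K) *
        A * (P : Matrix (Fin r) (Fin r) K),
        ((P'⁻¹ : Matrix.GeneralLinearGroup (Fin r') K) : Matrix (Fin r') (Fin r') K) *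
        B * (P' : Matrix (Fin r') (Fin r') K)) :
        Matrix (Fin r) (Fin r) K × Matrix (Fin r') (Fin r') K) ∈ Rc R P P' := by
      show ((_, _) : Matrix (Fin r) (Fin r) K × Matrix (Fin r') (Fin r') K) ∈ R
      rw [conj_cancel, conj_cancel]
      exact hAB
    exact hU _ hq v hv
  · -- degree zero
    intro q hq c1 c2
    have hZ : (((P : Matrix (Fin r) (Fin r) K) * q.1 *
        ((P⁻¹ : Matrix.GeneralLinearGroup (Fin r) K) : Matrix (Fin r) (Fin r) K),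
        (P' : Matrix (Fin r') (Fin r') K) * q.2 *
        ((P'⁻¹ : Matrix.GeneralLinearGroup (Fin r') K) : Matrix (Fin r') (Fin r') K)) :
        Matrix (Fin r) (Fin r) K × Matrix (Fin r') (Fin r') K) ∈ R := hq
    have d1 : dg P s * ((P : Matrix (Fin r) (Fin r) K) * q.1 *
        ((P⁻¹ : Matrix.GeneralLinearGroup (Fin r) K) : Matrix (Fin r) (Fin r) K)) =
        ((P : Matrix (Fin r) (Fin r) K) * q.1 *
        ((P⁻¹ : Matrix.GeneralLinearGroup (Fin r) K) : Matrix (Fin r) (Fin r) K)) * dg P s := by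
      have e := dg_brk P s q.1
      have e2 := cmp_brk s 0 q.1
      rw [c1, Int.cast_zero, zero_smul] at e2
      rw [e2, Matrix.mul_zero, Matrix.zero_mul] at e
      exact sub_eq_zero.1 e
    have d2 : dg P' s' * ((P' : Matrix (Fin r') (Fin r') K) * q.2 *
        ((P'⁻¹ : Matrix.GeneralLinearGroup (Fin r') K) : Matrix (Fin r') (Fin r') K)) =
        ((P' : Matrix (Fin r') (Fin r') K) * q.2 *
        ((P'⁻¹ : Matrix.GeneralLinearGroup (Fin r') K) : Matrix (Fin r') (Fin r') K)) *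
          dg P' s' := by
      have e := dg_brk P' s' q.2
      have e2 := cmp_brk s' 0 q.2
      rw [c2, Int.cast_zero, zero_smul] at e2
      rw [e2, Matrix.mul_zero, Matrix.zero_mul] at e
      exact sub_eq_zero.1 e
    have v1 : evl P ((P : Matrix (Fin r) (Fin r) K) * q.1 *
        ((P⁻¹ : Matrix.GeneralLinearGroup (Fin r) K) : Matrix (Fin r) (Fin r) K)) i₀ =
        q.1 i₀ i₀ := by
      unfold evl
      rw [conj_cancel']
    have v2 : evl P' ((P' : Matrix (Fin r') (Fin r') K) * q.2 *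
        ((P'⁻¹ : Matrix.GeneralLinearGroup (Fin r') K) : Matrix (Fin r') (Fin r') K)) i₀' =
        q.2 i₀' i₀' := by
      unfold evl
      rw [conj_cancel']
    obtain ⟨m1, m2⟩ := hLAM K r w ψ P s i₀ j₀ _ hψ hs h1 h2 h3 hTi (h.iso _ hZ).1 d1
    obtain ⟨n1, n2⟩ := hLAM K r' w ψ' P' s' i₀' j₀' _ hψ' hs' k1 k2 k3 hT'i (h.iso _ hZ).2 d2
    rw [v1] at m1 m2
    rw [v2] at n1 n2
    rcases hpar with hw | ⟨_, hr3, hrr⟩
    · obtain ⟨⟨E, hE0, hE, _⟩, m3⟩ := m2 hw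
      obtain ⟨_, n3⟩ := n2 hw
      obtain ⟨E', hE'⟩ := h.l E hE.1
      have hE'0 : E' ≠ 0 := fun h0 => hE0 ((h.inj _ hE').2 h0)
      have w1 := h.eig hZ hE' _ (m3 E hE)
      have w2 := n3 E' ⟨(h.iso _ hE').2, h.eig hT hE' 2 hE.2⟩
      rw [w1] at w2
      have w3 : (2 * q.1 i₀ i₀ - 2 * q.2 i₀' i₀') • E' = 0 := by
        rw [sub_smul, w2, sub_self]
      rcases smul_eq_zero.1 w3 with w4 | w4
      · have w5 : (2 : K) * q.1 i₀ i₀ = 2 * q.2 i₀' i₀' := sub_eq_zero.1 w4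
        exact mul_left_cancel₀ two_ne_zero w5
      · exact absurd w4 hE'0
    · obtain ⟨f, hf⟩ := exists_ad (h.iso _ hZ).1 d1 (1 : K)
      obtain ⟨f', hf'⟩ := exists_ad (h.iso _ hZ).2 d2 (1 : K)
      have w1 := m1 f hf
      have w2 := n1 f' hf'
      have w3 := h.trace hT hZ 1 f hf f' hf'
      have w0 : (r' : K) = (r : K) := congrArg (fun m : ℕ => (m : K)) hrr.symm
      rw [← w3] at w2
      have w4 : ((r : K) - 2) * (q.1 i₀ i₀ - q.2 i₀' i₀') = 0 := by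
        linear_combination w2 - w1 + q.2 i₀' i₀' * w0
      rcases mul_eq_zero.1 w4 with w5 | w5
      · exfalso
        have w6 : ((r : ℕ) : K) = ((2 : ℕ) : K) := by
          push_cast
          exact sub_eq_zero.1 w5
        have w7 : r = 2 := by exact_mod_cast w6
        omega
      · exact sub_eq_zero.1 w5

end EM
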