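import Pool.Agent.Helper21.EM.Stmts

/-!
# T33, row AUT, part 1: joint homogeneous components; irreducibility of orthogonal and symplectic
Lie algebras
-/

set_option autoImplicit false

open Matrix MT

namespace EM

variable {K : Type} [Field K]

/-- the joint homogeneous components -/
theorem gra_pair [CharZero K] {n m : ℕ}
    (R : Submodule K (Matrix (Fin n) (Fin n) K × Matrix (Fin m) (Fin m) K))
    (d : Fin n → ℤ) (e : Fin m → ℤ)
    (h : ∀ p ∈ R, ((Matrix.diagonal (fun j => (d j : K)) * p.1 -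
        p.1 * Matrix.diagonal (fun j => (d j : K)),
      Matrix.diagonal (fun j => (e j : K)) * p.2 - p.2 * Matrix.diagonal (fun j => (e j : K))) :
      Matrix (Fin n) (Fin n) K × Matrix (Fin m) (Fin m) K) ∈ R)
    (p : Matrix (Fin n) (Fin n) K × Matrix (Fin m) (Fin m) K) (hp : p ∈ R) (x : ℤ) :
    ((cmp d x p.1, cmp e x p.2) :
      Matrix (Fin n) (Fin n) K × Matrix (Fin m) (Fin m) K) ∈ R := by
  classical
  -- products of the differences
  have key : ∀ T : Finset ℤ, ((Matrix.of (fun i j =>
      (∏ s ∈ T, (((d i - d j : ℤ) : K) - (s : K))) * p.1 i j), Matrix.of (fun i j =>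
      (∏ s ∈ T, (((e i - e j : ℤ) : K) - (s : K))) * p.2 i j)) :
        Matrix (Fin n) (Fin n) K × Matrix (Fin m) (Fin m) K) ∈ R := by
    intro T
    induction T using Finset.induction_on with
    | empty =>
      have : ((Matrix.of (fun i j =>
          (∏ s ∈ (∅ : Finset ℤ), (((d i - d j : ℤ) : K) - (s : K))) * p.1 i j), Matrix.of (fun i j =>
          (∏ s ∈ (∅ : Finset ℤ), (((e i - e j : ℤ) : K) - (s : K))) * p.2 i j)) :
            Matrix (Fin n) (Fin n) K × Matrix (Fin m) (Fin m) K) = p := by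
        refine Prod.ext ?_ ?_
        · ext i j; simp
        · ext i j; simp
      rw [this]; exact hp
    | insert s T hs ih =>
      have h1 := h _ ih
      have h2 := R.sub_mem h1 (R.smul_mem ((s : ℤ) : K) ih)
      convert h2 using 1
      refine Prod.ext ?_ ?_
      · ext i j
        simp only [Prod.fst_sub, Prod.smul_fst, Matrix.sub_apply, Matrix.smul_apply,
          Matrix.diagonal_mul, Matrix.mul_diagonal, Matrix.of_apply, smul_eq_mul]
        rw [Finset.prod_insert hs]
        push_cast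
        ring
      · ext i j
        simp only [Prod.snd_sub, Prod.smul_snd, Matrix.sub_apply, Matrix.smul_apply,
          Matrix.diagonal_mul, Matrix.mul_diagonal, Matrix.of_apply, smul_eq_mul]
        rw [Finset.prod_insert hs]
        push_cast
        ring
  -- the degrees
  set T : Finset ℤ := ((Finset.univ.image (fun p : Fin n × Fin n => d p.1 - d p.2)) ∪
    (Finset.univ.image (fun p : Fin m × Fin m => e p.1 - e p.2))).erase x with hT
  have hc : (∏ s ∈ T, ((x : K) - (s : K))) ≠ 0 := by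
    rw [Finset.prod_ne_zero_iff]
    intro s hs
    rw [sub_ne_zero]
    intro h'
    have : x = s := by exact_mod_cast h'
    exact (Finset.mem_erase.1 hs).1 this.symm
  have h1 := R.smul_mem (∏ s ∈ T, ((x : K) - (s : K)))⁻¹ (key T)
  convert h1 using 1
  refine Prod.ext ?_ ?_
  · ext i j
    rw [Prod.smul_fst, Matrix.smul_apply, smul_eq_mul]
    show (if d i - d j = x then p.1 i j else 0) = (∏ s ∈ T, ((x : K) - (s : K)))⁻¹ *
      ((∏ s ∈ T, (((d i - d j : ℤ) : K) - (s : K))) * p.1 i j)
    split_ifs with hx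
    · rw [hx, ← mul_assoc, inv_mul_cancel₀ hc, one_mul]
    · have : ∏ s ∈ T, (((d i - d j : ℤ) : K) - (s : K)) = 0 := by
        apply Finset.prod_eq_zero (i := d i - d j)
        · rw [hT, Finset.mem_erase]
          exact ⟨hx, Finset.mem_union_left _ (Finset.mem_image.2 ⟨(i, j), Finset.mem_univ _, rfl⟩)⟩
        · simp
      rw [this, zero_mul, mul_zero]
  · ext i j
    rw [Prod.smul_snd, Matrix.smul_apply, smul_eq_mul]
    show (if e i - e j = x then p.2 i j else 0) = (∏ s ∈ T, ((x : K) - (s : K)))⁻¹ *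
      ((∏ s ∈ T, (((e i - e j : ℤ) : K) - (s : K))) * p.2 i j)
    split_ifs with hx
    · rw [hx, ← mul_assoc, inv_mul_cancel₀ hc, one_mul]
    · have : ∏ s ∈ T, (((e i - e j : ℤ) : K) - (s : K)) = 0 := by
        apply Finset.prod_eq_zero (i := e i - e j)
        · rw [hT, Finset.mem_erase]
          exact ⟨hx, Finset.mem_union_right _
            (Finset.mem_image.2 ⟨(i, j), Finset.mem_univ _, rfl⟩)⟩
        · simp
      rw [this, zero_mul, mul_zero]

/-- the orthogonal Lie algebra is irreducible -/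
theorem irr_so [CharZero K] {r : ℕ} {ψ : Matrix (Fin r) (Fin r) K} (hu : IsUnit ψ)
    (hs : ψ.transpose = ψ) (hr : 3 ≤ r) (U : Submodule K (Fin r → K))
    (hU : ∀ A ∈ Grs.isoS ψ, ∀ v ∈ U, A.mulVec v ∈ U) : U = ⊥ ∨ U = ⊤ := by
  classical
  by_contra hcon
  push Not at hcon
  obtain ⟨h0, h1⟩ := hcon
  obtain ⟨v, hv, hv0⟩ := (Submodule.ne_bot_iff _).1 h0
  obtain ⟨x, hx⟩ : ∃ x, x ∉ U := by
    by_contra hc
    push Not at hc
    exact h1 (Submodule.eq_top_iff'.2 hc)
  -- the orthogonal complement of a nonzero element of `U` is contained in `U`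
  have key : ∀ u ∈ U, u ≠ 0 → ∀ a, Psr.pf ψ u a = 0 → a ∈ U := by
    intro u hu' hu0 a ha
    have : ∃ b, Psr.pf ψ u b ≠ 0 := by
      by_contra h
      push Not at h
      exact hu0 (Psr.pf_nondeg hu h)
    obtain ⟨b, hb⟩ := this
    have h2 := hU _ (Smp.iso_WW hs b a) u hu'
    rw [Smp.WW_mulVec, ha, zero_smul, sub_zero] at h2
    have h3 := U.smul_mem (Psr.pf ψ u b)⁻¹ h2
    rwa [smul_smul, inv_mul_cancel₀ hb, one_smul] at h3
  have hxv : ∀ u ∈ U, u ≠ 0 → Psr.pf ψ u x ≠ 0 := fun u hu' hu0 h => hx (key u hu' hu0 x h)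
  have hspan : ∀ y : Fin r → K, ∃ c d : K, y = c • x + d • v := by
    intro y
    -- `y - c x ∈ U`
    set c := Psr.pf ψ v y / Psr.pf ψ v x with hc
    have hne := hxv v hv hv0
    have h2 : y + (-c) • x ∈ U := by
      apply key v hv hv0
      rw [Psr.pf_add_right, Psr.pf_smul_right, hc]
      field_simp
      ring
    set u := y + (-c) • x with hu'
    have h3 : u + (-(Psr.pf ψ u x / Psr.pf ψ v x)) • v = 0 := by
      by_contra h4
      have h5 := hxv _ (U.add_mem h2 (U.smul_mem _ hv)) h4
      apply h5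
      rw [Psr.pf_add_left, Psr.pf_smul_left]
      field_simp
      ring
    refine ⟨c, Psr.pf ψ u x / Psr.pf ψ v x, ?_⟩
    have h4 : u = (Psr.pf ψ u x / Psr.pf ψ v x) • v := by
      rw [neg_smul, ← sub_eq_add_neg, sub_eq_zero] at h3
      exact h3
    have h5 : y = u + c • x := by
      rw [hu', neg_smul]
      abel
    rw [← h4]
    rw [h5]
    have : u + c • x + (-c) • x = u := by
      rw [neg_smul]; abel
    abel
  have h6 : (⊤ : Submodule K (Fin r → K)) ≤ Submodule.span K (({x, v} : Finset (Fin r → K)) :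
      Set (Fin r → K)) := by
    intro y _
    obtain ⟨c, d, h⟩ := hspan y
    rw [h]
    refine Submodule.add_mem _ (Submodule.smul_mem _ _ (Submodule.subset_span (by simp)))
      (Submodule.smul_mem _ _ (Submodule.subset_span (by simp)))
  have h7 : Module.finrank K (Fin r → K) ≤ 2 := by
    rw [← finrank_top K (Fin r → K)]
    calc Module.finrank K (⊤ : Submodule K (Fin r → K))
        ≤ Module.finrank K (Submodule.span K (({x, v} : Finset (Fin r → K)) :
          Set (Fin r → K))) := Submodule.finrank_mono h6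
      _ ≤ ({x, v} : Finset (Fin r → K)).card := finrank_span_finset_le_card _
      _ ≤ 2 := Finset.card_le_two
  rw [Module.finrank_fin_fun] at h7
  omega

/-- orthogonal and symplectic Lie algebras are irreducible -/
theorem irr_isoS [CharZero K] {r w : ℕ} {ψ : Matrix (Fin r) (Fin r) K} (hu : ψ.det ≠ 0)
    (hs : ψ.transpose = (-1 : K) ^ w • ψ) (hr : Odd w ∨ 3 ≤ r) (U : Submodule K (Fin r → K))
    (hU : ∀ A ∈ Grs.isoS ψ, ∀ v ∈ U, A.mulVec v ∈ U) : U = ⊥ ∨ U = ⊤ := by
  have hu' : IsUnit ψ := (Matrix.isUnit_iff_isUnit_det ψ).2 (isUnit_iff_ne_zero.2 hu)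
  rcases Nat.even_or_odd w with hw | hw
  · have hr' : 3 ≤ r := by
      rcases hr with h | h
      · exact absurd hw (Nat.not_even_iff_odd.2 h)
      · exact h
    rw [hw.neg_one_pow, one_smul] at hs
    exact irr_so hu' hs hr' U hU
  · rw [hw.neg_one_pow, neg_one_smul] at hs
    by_cases h0 : U = ⊥
    · exact Or.inl h0
    · right
      obtain ⟨v, hv, hv0⟩ := (Submodule.ne_bot_iff _).1 h0
      rw [Submodule.eq_top_iff']
      intro y
      obtain ⟨B, hB, hB2⟩ := Smp.sp_trans hs hu' hv0 y
      rw [← hB2]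
      exact hU B hB v hv

end EM
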