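import Pool.Agent.Helper5.EM.AUT0
import Pool.Agent.Helper5.MT9.GRA

/-!
# T33, row AUT, part 2: components for `dg P s`
-/

set_option autoImplicit false

open Matrix MT

namespace EM

variable {K : Type} [Field K]

/-- the component of degree `x` of `Y` for `dg P s` -/
noncomputable def hc {r : ℕ} (P : Matrix.GeneralLinearGroup (Fin r) K) (s : Fin r → ℤ) (x : ℤ)
    (Y : Matrix (Fin r) (Fin r) K) : Matrix (Fin r) (Fin r) K :=
  (P : Matrix (Fin r) (Fin r) K) * cmp s x
    (((P⁻¹ : Matrix.GeneralLinearGroup (Fin r) K) : Matrix (Fin r) (Fin r) K) * Y *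
      (P : Matrix (Fin r) (Fin r) K)) *
    ((P⁻¹ : Matrix.GeneralLinearGroup (Fin r) K) : Matrix (Fin r) (Fin r) K)

theorem gl_im {r : ℕ} (P : Matrix.GeneralLinearGroup (Fin r) K) :
    ((P⁻¹ : Matrix.GeneralLinearGroup (Fin r) K) : Matrix (Fin r) (Fin r) K) *
      (P : Matrix (Fin r) (Fin r) K) = 1 := Units.inv_mul P

theorem gl_mi {r : ℕ} (P : Matrix.GeneralLinearGroup (Fin r) K) :
    (P : Matrix (Fin r) (Fin r) K) *
      ((P⁻¹ : Matrix.GeneralLinearGroup (Fin r) K) : Matrix (Fin r) (Fin r) K) = 1 :=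
  Units.mul_inv P

/-- `[dg P s, P A P⁻¹] = P [diag s, A] P⁻¹` -/
theorem dg_brk {r : ℕ} (P : Matrix.GeneralLinearGroup (Fin r) K) (s : Fin r → ℤ)
    (A : Matrix (Fin r) (Fin r) K) :
    dg P s * ((P : Matrix (Fin r) (Fin r) K) * A *
        ((P⁻¹ : Matrix.GeneralLinearGroup (Fin r) K) : Matrix (Fin r) (Fin r) K)) -
      ((P : Matrix (Fin r) (Fin r) K) * A *
        ((P⁻¹ : Matrix.GeneralLinearGroup (Fin r) K) : Matrix (Fin r) (Fin r) K)) * dg P s =
    (P : Matrix (Fin r) (Fin r) K) * (Matrix.diagonal (fun j => (s j : K)) * A -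
      A * Matrix.diagonal (fun j => (s j : K))) *
        ((P⁻¹ : Matrix.GeneralLinearGroup (Fin r) K) : Matrix (Fin r) (Fin r) K) := by
  have h1 := gl_im P
  unfold dg
  generalize ((P⁻¹ : Matrix.GeneralLinearGroup (Fin r) K) : Matrix (Fin r) (Fin r) K) = Qi at *
  generalize (P : Matrix (Fin r) (Fin r) K) = Q at *
  generalize Matrix.diagonal (fun j => (s j : K)) = D
  have e1 : Q * D * Qi * (Q * A * Qi) = Q * (D * A) * Qi := by
    calc Q * D * Qi * (Q * A * Qi) = Q * D * (Qi * Q) * A * Qi := by simp only [Matrix.mul_assoc]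
      _ = Q * (D * A) * Qi := by rw [h1]; simp only [Matrix.mul_assoc, Matrix.one_mul]
  have e2 : Q * A * Qi * (Q * D * Qi) = Q * (A * D) * Qi := by
    calc Q * A * Qi * (Q * D * Qi) = Q * A * (Qi * Q) * D * Qi := by simp only [Matrix.mul_assoc]
      _ = Q * (A * D) * Qi := by rw [h1]; simp only [Matrix.mul_assoc, Matrix.one_mul]
  rw [e1, e2, Matrix.mul_sub, Matrix.sub_mul]

theorem cmp_brk {r : ℕ} (s : Fin r → ℤ) (x : ℤ) (A : Matrix (Fin r) (Fin r) K) :
    Matrix.diagonal (fun j => (s j : K)) * cmp s x A -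
      cmp s x A * Matrix.diagonal (fun j => (s j : K)) = (x : K) • cmp s x A := by
  ext i j
  rw [Matrix.sub_apply, Matrix.diagonal_mul, Matrix.mul_diagonal, Matrix.smul_apply, smul_eq_mul]
  show (s i : K) * (if s i - s j = x then A i j else 0) - (if s i - s j = x then A i j else 0) *
    (s j : K) = (x : K) * (if s i - s j = x then A i j else 0)
  split_ifs with h
  · rw [← h]
    push_cast
    ring
  · ring

theorem dg_hc {r : ℕ} (P : Matrix.GeneralLinearGroup (Fin r) K) (s : Fin r → ℤ) (x : ℤ)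
    (Y : Matrix (Fin r) (Fin r) K) :
    dg P s * hc P s x Y - hc P s x Y * dg P s = (x : K) • hc P s x Y := by
  unfold hc
  rw [dg_brk, cmp_brk, Matrix.mul_smul, Matrix.smul_mul]

/-- the components of an element of `isoS ψ` are in `isoS ψ` -/
theorem hc_mem [CharZero K] {r : ℕ} {ψ : Matrix (Fin r) (Fin r) K}
    (P : Matrix.GeneralLinearGroup (Fin r) K) (s : Fin r → ℤ)
    (hT : dg P s ∈ Grs.isoS ψ) {Y : Matrix (Fin r) (Fin r) K} (hY : Y ∈ Grs.isoS ψ) (x : ℤ) :
    hc P s x Y ∈ Grs.isoS ψ := by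
  let a : Submodule K (Matrix (Fin r) (Fin r) K) :=
    { carrier := {A | (P : Matrix (Fin r) (Fin r) K) * A *
        ((P⁻¹ : Matrix.GeneralLinearGroup (Fin r) K) : Matrix (Fin r) (Fin r) K) ∈ Grs.isoS ψ}
      add_mem' := by
        intro A B hA hB
        show (P : Matrix (Fin r) (Fin r) K) * (A + B) *
          ((P⁻¹ : Matrix.GeneralLinearGroup (Fin r) K) : Matrix (Fin r) (Fin r) K) ∈ Grs.isoS ψ
        rw [Matrix.mul_add, Matrix.add_mul]
        exact (Grs.isoS ψ).add_mem hA hB
      zero_mem' := by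
        show (P : Matrix (Fin r) (Fin r) K) * 0 *
          ((P⁻¹ : Matrix.GeneralLinearGroup (Fin r) K) : Matrix (Fin r) (Fin r) K) ∈ Grs.isoS ψ
        rw [Matrix.mul_zero, Matrix.zero_mul]
        exact (Grs.isoS ψ).zero_mem
      smul_mem' := by
        intro c A hA
        show (P : Matrix (Fin r) (Fin r) K) * (c • A) *
          ((P⁻¹ : Matrix.GeneralLinearGroup (Fin r) K) : Matrix (Fin r) (Fin r) K) ∈ Grs.isoS ψ
        rw [Matrix.mul_smul, Matrix.smul_mul]
        exact (Grs.isoS ψ).smul_mem c hA }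
  have h1 : ∀ A ∈ a, Matrix.diagonal (fun j => (s j : K)) * A -
      A * Matrix.diagonal (fun j => (s j : K)) ∈ a := by
    intro A hA
    show (P : Matrix (Fin r) (Fin r) K) * (Matrix.diagonal (fun j => (s j : K)) * A -
      A * Matrix.diagonal (fun j => (s j : K))) *
        ((P⁻¹ : Matrix.GeneralLinearGroup (Fin r) K) : Matrix (Fin r) (Fin r) K) ∈ Grs.isoS ψ
    rw [← dg_brk]
    exact Grs.isoS_bracket hT hA
  refine st_GRA K r a s h1 _ ?_ x
  show (P : Matrix (Fin r) (Fin r) K) *
    (((P⁻¹ : Matrix.GeneralLinearGroup (Fin r) K) : Matrix (Fin r) (Fin r) K) * Y *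
      (P : Matrix (Fin r) (Fin r) K)) *
        ((P⁻¹ : Matrix.GeneralLinearGroup (Fin r) K) : Matrix (Fin r) (Fin r) K) ∈ Grs.isoS ψ
  have h2 := gl_mi P
  generalize ((P⁻¹ : Matrix.GeneralLinearGroup (Fin r) K) : Matrix (Fin r) (Fin r) K) = Qi at *
  generalize (P : Matrix (Fin r) (Fin r) K) = Q at *
  have e : Q * (Qi * Y * Q) * Qi = Y := by
    calc Q * (Qi * Y * Q) * Qi = (Q * Qi) * Y * (Q * Qi) := by simp only [Matrix.mul_assoc]
      _ = Y := by rw [h2, Matrix.one_mul, Matrix.mul_one]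
  rw [e]
  exact hY

/-- the degrees of a matrix for eigenvalues `1`, `-1`, `0` -/
theorem hc_sum {r : ℕ} (P : Matrix.GeneralLinearGroup (Fin r) K) (s : Fin r → ℤ)
    (i₀ j₀ : Fin r) (h1 : s i₀ = 1) (h2 : s j₀ = -1) (h3 : ∀ j, j ≠ i₀ → j ≠ j₀ → s j = 0)
    (Y : Matrix (Fin r) (Fin r) K) :
    Y = hc P s 0 Y + hc P s 1 Y + hc P s (-1) Y + hc P s 2 Y + hc P s (-2) Y := by
  have e : ∀ A : Matrix (Fin r) (Fin r) K,
      A = cmp s 0 A + cmp s 1 A + cmp s (-1) A + cmp s 2 A + cmp s (-2) A := by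
    intro A
    ext i j
    rw [Matrix.add_apply, Matrix.add_apply, Matrix.add_apply, Matrix.add_apply]
    show A i j = (if s i - s j = 0 then A i j else 0) + (if s i - s j = 1 then A i j else 0) +
      (if s i - s j = -1 then A i j else 0) + (if s i - s j = 2 then A i j else 0) +
      (if s i - s j = -2 then A i j else 0)
    have h4 : ∀ i, s i = 1 ∨ s i = -1 ∨ s i = 0 := by
      intro i
      by_cases hi : i = i₀
      · rw [hi]; exact Or.inl h1
      · by_cases hj : i = j₀
        · rw [hj]; exact Or.inr (Or.inl h2)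
        · exact Or.inr (Or.inr (h3 i hi hj))
    rcases h4 i with hi | hi | hi <;> rcases h4 j with hj | hj | hj <;> rw [hi, hj] <;> norm_num
  have h5 := gl_mi P
  unfold hc
  rw [← Matrix.add_mul, ← Matrix.add_mul, ← Matrix.add_mul, ← Matrix.add_mul, ← Matrix.mul_add,
    ← Matrix.mul_add, ← Matrix.mul_add, ← Matrix.mul_add, ← e]
  generalize ((P⁻¹ : Matrix.GeneralLinearGroup (Fin r) K) : Matrix (Fin r) (Fin r) K) = Qi at *
  generalize (P : Matrix (Fin r) (Fin r) K) = Q at *
  calc Y = (Q * Qi) * Y * (Q * Qi) := by rw [h5, Matrix.one_mul, Matrix.mul_one]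
    _ = Q * (Qi * Y * Q) * Qi := by simp only [Matrix.mul_assoc]

/-- skewness of `dg P s` in the frame `P` -/
theorem frame_form {r : ℕ} {ψ : Matrix (Fin r) (Fin r) K} [CharZero K]
    (P : Matrix.GeneralLinearGroup (Fin r) K) (s : Fin r → ℤ)
    (hT : dg P s ∈ Grs.isoS ψ) (i j : Fin r)
    (h : ((P : Matrix (Fin r) (Fin r) K).transpose * ψ * (P : Matrix (Fin r) (Fin r) K)) i j ≠ 0) :
    s i + s j = 0 := by
  have h1 : (dg P s).transpose * ψ + ψ * dg P s = 0 := hT
  have h2 := gl_im P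
  unfold dg at h1
  have h3 : Matrix.diagonal (fun j => (s j : K)) * ((P : Matrix (Fin r) (Fin r) K).transpose * ψ *
      (P : Matrix (Fin r) (Fin r) K)) + ((P : Matrix (Fin r) (Fin r) K).transpose * ψ *
      (P : Matrix (Fin r) (Fin r) K)) * Matrix.diagonal (fun j => (s j : K)) = 0 := by
    generalize ((P⁻¹ : Matrix.GeneralLinearGroup (Fin r) K) : Matrix (Fin r) (Fin r) K) = Qi at *
    generalize (P : Matrix (Fin r) (Fin r) K) = Q at *
    have h4 : Q.transpose * Qi.transpose = 1 := by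
      rw [← Matrix.transpose_mul, h2, Matrix.transpose_one]
    have hD : (Matrix.diagonal (fun j => (s j : K))).transpose =
      Matrix.diagonal (fun j => (s j : K)) := Matrix.diagonal_transpose _
    generalize Matrix.diagonal (fun j => (s j : K)) = D at *
    have h5 := congrArg (fun M => Q.transpose * M * Q) h1
    simp only [Matrix.mul_zero, Matrix.zero_mul] at h5
    rw [← h5, Matrix.transpose_mul, Matrix.transpose_mul, hD, Matrix.mul_add, Matrix.add_mul]
    congr 1
    · calc D * (Q.transpose * ψ * Q) = 1 * D * (Q.transpose * ψ * Q) := by rw [Matrix.one_mul]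
        _ = (Q.transpose * Qi.transpose) * D * (Q.transpose * ψ * Q) := by rw [h4]
        _ = Q.transpose * (Qi.transpose * (D * Q.transpose) * ψ) * Q := by
          simp only [Matrix.mul_assoc]
    · calc Q.transpose * ψ * Q * D = Q.transpose * ψ * Q * D * 1 := by rw [Matrix.mul_one]
        _ = Q.transpose * ψ * Q * D * (Qi * Q) := by rw [h2]
        _ = Q.transpose * (ψ * (Q * D * Qi)) * Q := by simp only [Matrix.mul_assoc]
  have h6 := congrFun (congrFun h3 i) j
  rw [Matrix.add_apply, Matrix.diagonal_mul, Matrix.mul_diagonal, Matrix.zero_apply] at h6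
  have h7 : (((s i + s j : ℤ)) : K) * ((P : Matrix (Fin r) (Fin r) K).transpose * ψ *
      (P : Matrix (Fin r) (Fin r) K)) i j = 0 := by
    push_cast
    rw [← h6]
    ring
  rcases mul_eq_zero.1 h7 with h8 | h8
  · exact_mod_cast h8
  · exact absurd h8 h

/-- the two eigenvectors are not orthogonal -/
theorem frame_pair {r : ℕ} {ψ : Matrix (Fin r) (Fin r) K} [CharZero K]
    (P : Matrix.GeneralLinearGroup (Fin r) K) (s : Fin r → ℤ) (hψ : ψ.det ≠ 0)
    (hT : dg P s ∈ Grs.isoS ψ) (i₀ j₀ : Fin r) (h1 : s i₀ = 1) (h2 : s j₀ = -1)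
    (h3 : ∀ j, j ≠ i₀ → j ≠ j₀ → s j = 0) :
    ((P : Matrix (Fin r) (Fin r) K).transpose * ψ * (P : Matrix (Fin r) (Fin r) K)) i₀ j₀ ≠ 0 := by
  have h4 : ((P : Matrix (Fin r) (Fin r) K).transpose * ψ *
      (P : Matrix (Fin r) (Fin r) K)).det ≠ 0 := by
    rw [Matrix.det_mul, Matrix.det_mul, Matrix.det_transpose]
    have h5 : (P : Matrix (Fin r) (Fin r) K).det ≠ 0 :=
      ((Matrix.isUnit_iff_isUnit_det _).1 (Units.isUnit P)).ne_zero
    exact mul_ne_zero (mul_ne_zero h5 hψ) h5
  by_contra h5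
  apply h4
  apply Matrix.det_eq_zero_of_row_eq_zero i₀
  intro j
  by_contra h6
  have h7 := frame_form P s hT i₀ j h6
  have h8 : j = j₀ := by
    by_contra h9
    have h10 : j ≠ i₀ := by
      intro h11
      rw [h11, h1] at h7
      norm_num at h7
    rw [h1, h3 j h10 h9] at h7
    norm_num at h7
  rw [h8] at h6
  exact h6 h5

/-- no elements of degree `±2` in the orthogonal case -/
theorem no_two {r : ℕ} {ψ : Matrix (Fin r) (Fin r) K} [CharZero K]
    (P : Matrix.GeneralLinearGroup (Fin r) K) (s : Fin r → ℤ) (hψ : ψ.det ≠ 0)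
    (hs : ψ.transpose = ψ) (hT : dg P s ∈ Grs.isoS ψ) (i₀ j₀ : Fin r) (h1 : s i₀ = 1)
    (h2 : s j₀ = -1) (h3 : ∀ j, j ≠ i₀ → j ≠ j₀ → s j = 0) {Y : Matrix (Fin r) (Fin r) K}
    (hY : Y ∈ Grs.isoS ψ) : hc P s 2 Y = 0 ∧ hc P s (-2) Y = 0 := by
  have h4 : ∀ i, s i = 1 ∨ s i = -1 ∨ s i = 0 := by
    intro i
    by_cases hi : i = i₀
    · rw [hi]; exact Or.inl h1
    · by_cases hj : i = j₀
      · rw [hj]; exact Or.inr (Or.inl h2)
      · exact Or.inr (Or.inr (h3 i hi hj))
  have hi₀ : ∀ i, s i = 1 → i = i₀ := by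
    intro i hi
    by_contra hc1
    by_cases hc2 : i = j₀
    · rw [hc2, h2] at hi; norm_num at hi
    · rw [h3 i hc1 hc2] at hi; norm_num at hi
  have hj₀ : ∀ i, s i = -1 → i = j₀ := by
    intro i hi
    by_contra hc1
    by_cases hc2 : i = i₀
    · rw [hc2, h1] at hi; norm_num at hi
    · rw [h3 i hc2 hc1] at hi; norm_num at hi
  set φ := (P : Matrix (Fin r) (Fin r) K).transpose * ψ * (P : Matrix (Fin r) (Fin r) K) with hφ
  have hφs : ∀ i j, φ i j = φ j i := by
    intro i j
    have : φ.transpose = φ := by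
      rw [hφ, Matrix.transpose_mul, Matrix.transpose_mul, Matrix.transpose_transpose, hs,
        Matrix.mul_assoc]
    calc φ i j = φ.transpose j i := rfl
      _ = φ j i := by rw [this]
  have hp := frame_pair P s hψ hT i₀ j₀ h1 h2 h3
  rw [← hφ] at hp
  -- a skew matrix with one entry
  have key : ∀ (C : Matrix (Fin r) (Fin r) K) (a b : Fin r), φ a b ≠ 0 →
      (∀ i j, C i j ≠ 0 → i = a ∧ j = b) → C.transpose * φ + φ * C = 0 → C = 0 := by
    intro C a b hab hC hsk
    have e1 := congrFun (congrFun hsk b) b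
    rw [Matrix.add_apply, Matrix.mul_apply, Matrix.mul_apply, Matrix.zero_apply] at e1
    have e2 : ∑ k, C.transpose b k * φ k b = C a b * φ a b := by
      rw [Finset.sum_eq_single a]
      · rfl
      · intro k _ hk
        have : C k b = 0 := by
          by_contra h
          exact hk (hC k b h).1
        show C k b * φ k b = 0
        rw [this, zero_mul]
      · intro h; exact absurd (Finset.mem_univ _) h
    have e3 : ∑ k, φ b k * C k b = φ a b * C a b := by
      rw [Finset.sum_eq_single a]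
      · rw [hφs b a]
      · intro k _ hk
        have : C k b = 0 := by
          by_contra h
          exact hk (hC k b h).1
        rw [this, mul_zero]
      · intro h; exact absurd (Finset.mem_univ _) h
    rw [e2, e3] at e1
    have e4 : (2 * φ a b) * C a b = 0 := by rw [← e1]; ring
    have e5 : C a b = 0 := by
      rcases mul_eq_zero.1 e4 with h | h
      · rcases mul_eq_zero.1 h with h' | h'
        · exact absurd h' two_ne_zero
        · exact absurd h' hab
      · exact h
    ext i j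
    by_contra h
    obtain ⟨hi, hj⟩ := hC i j h
    rw [hi, hj] at h
    exact h e5
  -- skewness in the frame
  have sk : ∀ x, (cmp s x (((P⁻¹ : Matrix.GeneralLinearGroup (Fin r) K) :
      Matrix (Fin r) (Fin r) K) * Y * (P : Matrix (Fin r) (Fin r) K))).transpose * φ +
      φ * cmp s x (((P⁻¹ : Matrix.GeneralLinearGroup (Fin r) K) :
      Matrix (Fin r) (Fin r) K) * Y * (P : Matrix (Fin r) (Fin r) K)) = 0 := by
    intro x
    have m1 : (hc P s x Y).transpose * ψ + ψ * hc P s x Y = 0 := hc_mem P s hT hY x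
    unfold hc at m1
    have m2 := gl_im P
    rw [hφ]
    generalize cmp s x (((P⁻¹ : Matrix.GeneralLinearGroup (Fin r) K) :
      Matrix (Fin r) (Fin r) K) * Y * (P : Matrix (Fin r) (Fin r) K)) = C at *
    generalize ((P⁻¹ : Matrix.GeneralLinearGroup (Fin r) K) : Matrix (Fin r) (Fin r) K) = Qi at *
    generalize (P : Matrix (Fin r) (Fin r) K) = Q at *
    have m4 : Q.transpose * Qi.transpose = 1 := by
      rw [← Matrix.transpose_mul, m2, Matrix.transpose_one]
    have m5 := congrArg (fun M => Q.transpose * M * Q) m1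
    simp only [Matrix.mul_zero, Matrix.zero_mul] at m5
    rw [← m5, Matrix.transpose_mul, Matrix.transpose_mul, Matrix.mul_add, Matrix.add_mul]
    congr 1
    · calc C.transpose * (Q.transpose * ψ * Q)
          = 1 * C.transpose * (Q.transpose * ψ * Q) := by rw [Matrix.one_mul]
        _ = (Q.transpose * Qi.transpose) * C.transpose * (Q.transpose * ψ * Q) := by rw [m4]
        _ = Q.transpose * (Qi.transpose * (C.transpose * Q.transpose) * ψ) * Q := by
          simp only [Matrix.mul_assoc]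
    · calc Q.transpose * ψ * Q * C = Q.transpose * ψ * Q * C * 1 := by rw [Matrix.mul_one]
        _ = Q.transpose * ψ * Q * C * (Qi * Q) := by rw [m2]
        _ = Q.transpose * (ψ * (Q * C * Qi)) * Q := by simp only [Matrix.mul_assoc]
  constructor
  · unfold hc
    rw [key _ i₀ j₀ hp ?_ (sk 2), Matrix.mul_zero, Matrix.zero_mul]
    intro i j hij
    have hd : s i - s j = 2 := by
      by_contra h
      exact hij (if_neg h)
    have hi : s i = 1 ∧ s j = -1 := by
      rcases h4 i with hi | hi | hi <;> rcases h4 j with hj | hj | hj <;> omega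
    exact ⟨hi₀ i hi.1, hj₀ j hi.2⟩
  · unfold hc
    have hp' : φ j₀ i₀ ≠ 0 := by rw [hφs]; exact hp
    rw [key _ j₀ i₀ hp' ?_ (sk (-2)), Matrix.mul_zero, Matrix.zero_mul]
    intro i j hij
    have hd : s i - s j = -2 := by
      by_contra h
      exact hij (if_neg h)
    have hi : s i = -1 ∧ s j = 1 := by
      rcases h4 i with hi | hi | hi <;> rcases h4 j with hj | hj | hj <;> omega
    exact ⟨hj₀ i hi.1, hi₀ j hi.2⟩

end EM
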