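import Pool.Agent.Helper5.EM.AUT1

/-!
# T33, row AUT, part 3: pairs
-/

set_option autoImplicit false

open Matrix MT

namespace EM

variable {K : Type} [Field K]

/-- a graph of an isomorphism of Lie algebras of infinitesimal isometries -/
structure Gph {r r' : ℕ} (ψ : Matrix (Fin r) (Fin r) K) (ψ' : Matrix (Fin r') (Fin r') K)
    (R : Submodule K (Matrix (Fin r) (Fin r) K × Matrix (Fin r') (Fin r') K)) : Prop where
  iso : ∀ p ∈ R, p.1 ∈ Grs.isoS ψ ∧ p.2 ∈ Grs.isoS ψ'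
  brk : ∀ p ∈ R, ∀ q ∈ R, p * q - q * p ∈ R
  l : ∀ A ∈ Grs.isoS ψ, ∃ B, (A, B) ∈ R
  r : ∀ B ∈ Grs.isoS ψ', ∃ A, (A, B) ∈ R
  inj : ∀ p ∈ R, (p.1 = 0 ↔ p.2 = 0)

variable {r r' : ℕ} {ψ : Matrix (Fin r) (Fin r) K} {ψ' : Matrix (Fin r') (Fin r') K}
  {R : Submodule K (Matrix (Fin r) (Fin r) K × Matrix (Fin r') (Fin r') K)}

theorem Gph.uniq (h : Gph ψ ψ' R) {A : Matrix (Fin r) (Fin r) K}
    {B C : Matrix (Fin r') (Fin r') K} (hB : (A, B) ∈ R) (hC : (A, C) ∈ R) : B = C := by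
  have h1 := R.sub_mem hB hC
  have h2 : ((A, B) - (A, C) : Matrix (Fin r) (Fin r) K × Matrix (Fin r') (Fin r') K) =
      (0, B - C) := by
    refine Prod.ext ?_ ?_
    · exact sub_self A
    · rfl
  rw [h2] at h1
  exact sub_eq_zero.1 (((h.inj _ h1).1 rfl))

theorem Gph.brk' (h : Gph ψ ψ' R) {A A' : Matrix (Fin r) (Fin r) K}
    {B B' : Matrix (Fin r') (Fin r') K} (hA : (A, B) ∈ R) (hB : (A', B') ∈ R) :
    ((A * A' - A' * A, B * B' - B' * B) : Matrix (Fin r) (Fin r) K × Matrix (Fin r') (Fin r') K)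
      ∈ R := h.brk _ hA _ hB

/-- transport of an eigenvector -/
theorem Gph.eig (h : Gph ψ ψ' R) {T A : Matrix (Fin r) (Fin r) K}
    {T' B : Matrix (Fin r') (Fin r') K} (hT : (T, T') ∈ R) (hA : (A, B) ∈ R) (c : K)
    (he : T * A - A * T = c • A) : T' * B - B * T' = c • B := by
  have h1 := h.brk' hT hA
  rw [he] at h1
  have h2 : ((c • A, c • B) : Matrix (Fin r) (Fin r) K × Matrix (Fin r') (Fin r') K) ∈ R :=
    R.smul_mem c hA
  exact h.uniq h1 h2

theorem Gph.eig' (h : Gph ψ ψ' R) {T A : Matrix (Fin r) (Fin r) K}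
    {T' B : Matrix (Fin r') (Fin r') K} (hT : (T, T') ∈ R) (hA : (A, B) ∈ R) (c : K)
    (he : T' * B - B * T' = c • B) : T * A - A * T = c • A := by
  have h1 := h.brk' hT hA
  rw [he] at h1
  have h2 : ((c • A, c • B) : Matrix (Fin r) (Fin r) K × Matrix (Fin r') (Fin r') K) ∈ R :=
    R.smul_mem c hA
  have h3 := R.sub_mem h1 h2
  have h4 : ((T * A - A * T, c • B) - (c • A, c • B) :
      Matrix (Fin r) (Fin r) K × Matrix (Fin r') (Fin r') K) =
      (T * A - A * T - c • A, 0) := by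
    refine Prod.ext rfl (sub_self _)
  rw [h4] at h3
  exact sub_eq_zero.1 ((h.inj _ h3).2 rfl)

/-- the isomorphism on the parts of degree `x` -/
theorem Gph.deg (h : Gph ψ ψ' R) {T : Matrix (Fin r) (Fin r) K}
    {T' : Matrix (Fin r') (Fin r') K} (hT : (T, T') ∈ R) (x : K) :
    ∃ f : Deg ψ T x ≃ₗ[K] Deg ψ' T' x, ∀ A : Deg ψ T x,
      ((A : Matrix (Fin r) (Fin r) K), (f A : Matrix (Fin r') (Fin r') K)) ∈ R := by
  obtain ⟨f, hf⟩ := Grs.graph_equiv (Deg ψ T x) (Deg ψ' T' x)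
    (R ⊓ (Deg ψ T x).prod (Deg ψ' T' x))
    (fun p hp => ⟨hp.2.1, hp.2.2⟩)
    (fun A hA => by
      obtain ⟨B, hB⟩ := h.l A hA.1
      exact ⟨B, hB, hA, (h.iso _ hB).2, h.eig hT hB x hA.2⟩)
    (fun B hB => by
      obtain ⟨A, hA⟩ := h.r B hB.1
      exact ⟨A, hA, ⟨(h.iso _ hA).1, h.eig' hT hA x hB.2⟩, hB⟩)
    (fun p hp => h.inj p hp.1)
  exact ⟨f, fun A => (hf A).1⟩

/-- `ad Z` on the part of degree `x` -/
theorem exists_ad {r : ℕ} {ψ T Z : Matrix (Fin r) (Fin r) K} (hZ : Z ∈ Grs.isoS ψ)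
    (hTZ : T * Z = Z * T) (x : K) :
    ∃ f : Deg ψ T x →ₗ[K] Deg ψ T x, ∀ Y : Deg ψ T x,
      ((f Y : Deg ψ T x) : Matrix (Fin r) (Fin r) K) =
        Z * (Y : Matrix (Fin r) (Fin r) K) - (Y : Matrix (Fin r) (Fin r) K) * Z := by
  have hmem : ∀ Y ∈ Deg ψ T x, Z * Y - Y * Z ∈ Deg ψ T x := by
    intro Y hY
    refine ⟨Grs.isoS_bracket hZ hY.1, ?_⟩
    have h1 : T * Y - Y * T = x • Y := hY.2
    calc T * (Z * Y - Y * Z) - (Z * Y - Y * Z) * T
        = T * Z * Y - T * Y * Z - Z * Y * T + Y * (Z * T) := by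
          rw [Matrix.mul_sub, Matrix.sub_mul]
          simp only [Matrix.mul_assoc]
          abel
      _ = Z * T * Y - T * Y * Z - Z * Y * T + Y * (T * Z) := by rw [hTZ]
      _ = Z * (T * Y - Y * T) - (T * Y - Y * T) * Z := by
          rw [Matrix.mul_sub, Matrix.sub_mul]
          simp only [Matrix.mul_assoc]
          abel
      _ = x • (Z * Y - Y * Z) := by
          rw [h1, Matrix.mul_smul, Matrix.smul_mul, smul_sub]
  let g : Matrix (Fin r) (Fin r) K →ₗ[K] Matrix (Fin r) (Fin r) K :=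
    { toFun := fun Y => Z * Y - Y * Z
      map_add' := by
        intro A B
        rw [Matrix.mul_add, Matrix.add_mul]
        abel
      map_smul' := by
        intro c A
        rw [Matrix.mul_smul, Matrix.smul_mul, RingHom.id_apply, smul_sub] }
  exact ⟨g.restrict hmem, fun Y => rfl⟩

/-- traces of `ad Z` -/
theorem Gph.trace (h : Gph ψ ψ' R) {T Z : Matrix (Fin r) (Fin r) K}
    {T' Z' : Matrix (Fin r') (Fin r') K} (hT : (T, T') ∈ R) (hZ : (Z, Z') ∈ R) (x : K)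
    (f : Deg ψ T x →ₗ[K] Deg ψ T x)
    (hf : ∀ Y, ((f Y : Deg ψ T x) : Matrix (Fin r) (Fin r) K) =
        Z * (Y : Matrix (Fin r) (Fin r) K) - (Y : Matrix (Fin r) (Fin r) K) * Z)
    (f' : Deg ψ' T' x →ₗ[K] Deg ψ' T' x)
    (hf' : ∀ Y, ((f' Y : Deg ψ' T' x) : Matrix (Fin r') (Fin r') K) =
        Z' * (Y : Matrix (Fin r') (Fin r') K) - (Y : Matrix (Fin r') (Fin r') K) * Z') :
    LinearMap.trace K _ f = LinearMap.trace K _ f' := by
  obtain ⟨e, he⟩ := h.deg hT x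
  have h1 : f' = e.conj f := by
    ext1 Y
    rw [LinearEquiv.conj_apply_apply]
    apply Subtype.ext
    rw [hf']
    have h2 := he (e.symm Y)
    rw [LinearEquiv.apply_symm_apply] at h2
    have h3 := h.brk' hZ h2
    have h4 := he (f (e.symm Y))
    rw [hf] at h4
    exact h.uniq h3 h4
  rw [h1, LinearMap.trace_conj']

end EM
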